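import Pool.Agent.Run7.h60.FlatSch

/-!
# Smooth Schoenflies for 3-spheres bounding a ball which is almost affine at small scales

A smooth 3-sphere in `ℝ⁴` (so in `S⁴`) is given together with a parametrization `H` of the
topological ball which it bounds: `H` is continuous and injective on a neighbourhood of the closed
unit ball, and a local diffeomorphism near the unit sphere. By Freedman's theorem there is always such
an `H`. We show that the sphere is unknotted if at every interior point where `H` is not a local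
diffeomorphism it is directionally monotone, or almost affine at the scales `ε k`, which may tend to
`0` arbitrarily fast: for all `z` near the point and all large `k` the map `H` differs on the ball of
radius `ε k` around `z` from an affine map by at most `η ε k`, measured after applying the inverse of
its linear part `L`. No relation between the linear maps `L` for different `z` or `k` is assumed, and
their norms and the norms of their inverses may tend to infinity arbitrarily fast with `k`; nothing is
assumed about `H` at the scales between the `ε k`. The constant `η` is absolute.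

So a knotted smooth 3-sphere can only bound balls whose parametrizations are far from affine at all
small scales somewhere: for every sequence of scales there are points of the ball where `H` is not
monotone and, at infinitely many of the scales, not almost affine at points arbitrarily near.

Proof: the mollifications of `H` at the scale `ε k` are local diffeomorphisms near the bad points, for
large `k`. They are glued with `H` near the unit sphere; the result is a local diffeomorphism which is
homotopic to `H` relative to a neighbourhood of the sphere, hence a diffeomorphism onto the same ball.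
-/

set_option autoImplicit false

open Set Filter Topology Metric Function
open scoped ContDiff

namespace Pool.Agent.Results.MP_6c077c_gt.AlmostAffineBall

/-- `ℝ⁴` -/
abbrev R4 : Type := EuclideanSpace ℝ (Fin 4)

/-- `H` is a local diffeomorphism at `x`: smooth near `x`, with bijective derivative at `x` -/
def LocDiff (H : R4 → R4) (x : R4) : Prop :=
  (∀ᶠ y in 𝓝 x, ContDiffAt ℝ ∞ H y) ∧ Bijective (fderiv ℝ H x)

/-- `H` is directionally monotone at `x`: for every direction `v` there is a linear functional `ℓ`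
such that `ℓ ∘ H` is strictly increasing near `x` in all directions near `v` -/
def DirMonotone (H : R4 → R4) (x : R4) : Prop :=
  ∀ v : R4, v ≠ 0 → ∃ (r : ℝ) (ℓ : R4 →L[ℝ] ℝ), 0 < r ∧
    ∀ p q : R4, ‖p - x‖ ≤ r → ‖q - x‖ ≤ r → ∀ t : ℝ, 0 < t → ‖q - p - t • v‖ ≤ r * t →
      ℓ (H p) < ℓ (H q)

/-- `H` is almost affine near `x` at the scales `ε k`: for all large `k` and all `z` in a ball around
`x` there is a linear isomorphism `L` such that `‖L⁻¹ (H (z + y) - H z) - y‖ ≤ η ε k` for all `y` with
`‖y‖ ≤ ε k` -/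
def AlmostAffine (η : ℝ) (ε : ℕ → ℝ) (H : R4 → R4) (x : R4) : Prop :=
  ∃ ρ : ℝ, 0 < ρ ∧ ∀ᶠ k in atTop, ∀ z : R4, ‖z - x‖ < ρ →
    ∃ L : R4 ≃L[ℝ] R4, ∀ y : R4, ‖y‖ ≤ ε k → ‖L.symm (H (z + y) - H z) - y‖ ≤ η * ε k

/-- `G` is a diffeomorphism of `ℝ⁴`, equal to a linear isometry outside a compact set (so it extends
to a diffeomorphism of `S⁴`) -/
def StandardAtInfinity (G : R4 → R4) : Prop :=
  ContDiff ℝ ∞ G ∧ (∃ K : R4 → R4, ContDiff ℝ ∞ K ∧ LeftInverse K G ∧ RightInverse K G) ∧
    ∃ (O : R4 ≃ₗᵢ[ℝ] R4) (R : ℝ), ∀ x, R ≤ ‖x‖ → G x = O x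

theorem result : ∃ η : ℝ, 0 < η ∧ ∀ ε : ℕ → ℝ, (∀ k, 0 < ε k) → Tendsto ε atTop (𝓝 0) →
    ∀ (H : R4 → R4) (δ : ℝ), 0 < δ → ContinuousOn H (ball 0 (1 + δ)) →
    InjOn H (ball 0 (1 + δ)) → (∀ x, 1 ≤ ‖x‖ → ‖x‖ < 1 + δ → LocDiff H x) →
    (∀ x, ‖x‖ < 1 → LocDiff H x ∨ DirMonotone H x ∨ AlmostAffine η ε H x) →
    ∃ G : R4 → R4, StandardAtInfinity G ∧ (∀ x, ‖x‖ = 1 → G x = H x) ∧
      G '' closedBall 0 1 = H '' closedBall 0 1 := by
  obtain ⟨η, hη, hη1⟩ : ∃ η : ℝ, 0 < η ∧ Run7.h60.Sc.kc 4 * η < 1 := by
    have := Run7.h60.Sc.kc_nonneg (n := 4)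
    refine ⟨1 / (Run7.h60.Sc.kc 4 + 1), by positivity, ?_⟩
    rw [mul_one_div, div_lt_one (by positivity)]
    linarith
  refine ⟨η, hη, fun ε hε hε0 H δ hδ hc hi hs h => ?_⟩
  have hca : ∀ x : R4, ‖x‖ < 1 → ∀ᶠ w in 𝓝 x, ContinuousAt H w := fun x hx => by
    have h1 : x ∈ ball (0 : R4) (1 + δ) := by
      rw [mem_ball_zero_iff]
      linarith
    filter_upwards [isOpen_ball.mem_nhds h1] with w hw
    exact hc.continuousAt (isOpen_ball.mem_nhds hw)
  obtain ⟨G, O, R, hb, hL, h1, h2, h3⟩ := Run7.h60.Sc.sch_flat hε hε0 H δ hδ hc hi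
    (fun x hx hx' => Pool.Agent.Y522.LD_of_bij (hs x hx hx').1 (hs x hx hx').2)
    (fun x hx => by
      rcases h x hx with h' | h' | ⟨ρ, hρ, h'⟩
      · exact Or.inl (Pool.Agent.Y522.LD_of_bij h'.1 h'.2)
      · exact Or.inr (Run7.h60.Sc.ld_of_dmon hε hε0 (hca x hx) h')
      · exact Or.inr (Run7.h60.Sc.ld_of_aa hε hε0 hη1 hρ (hca x hx) h'))
  obtain ⟨hG, hK⟩ := Pool.Agent.Y522.smooth_inverse hb hL
  exact ⟨G, ⟨hG, hK, O, R, h3⟩, h1, h2⟩

end Pool.Agent.Results.MP_6c077c_gt.AlmostAffineBall
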