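import Pool.Agent.Run7.h7.QSch
import Pool.Agent.Run7.h7.C1Ball

/-!
# Smooth Schoenflies for 3-spheres which bound a ball with three coordinates of class `C^1`

A smooth 3-sphere in `ℝ⁴` (so in `S⁴`) is given together with a parametrization `H` of the
topological ball which it bounds: `H` is continuous and injective on a neighbourhood of the closed
unit ball, and a local diffeomorphism near the unit sphere. We assume that near every interior point
at which `H` is not a local diffeomorphism, three of the four coordinates of `H` are of class `C^1`,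
with independent derivatives; nothing is assumed on the fourth coordinate (it is continuous). Here the
three coordinates may be any three linear coordinates, which depend on the point, or three
coordinates given by a submersion from a given family of submersions of class `C^1`, defined on open
subsets of `ℝ⁴`, any two of which are at every common point transversal or have the same fibres near
this point. Points near which `H` is of class `C^1` and of rank at least three are also allowed. Then
the sphere is unknotted: some diffeomorphism `G` of `ℝ⁴`, a linear isometry outside a compact set,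
agrees with `H` on the unit sphere and maps the closed unit ball onto the ball bounded by the sphere,
and `G` can be chosen as close to `H` on the closed unit ball as we like.
-/

set_option autoImplicit false

open Set Filter Topology Metric Function
open scoped Manifold ContDiff

noncomputable section

namespace Pool.Agent.Results.MP_6c077c_gt.C1Coordinates

/-- `ℝ⁴` -/
abbrev R4 : Type := EuclideanSpace ℝ (Fin 4)

/-- `ℝ³` -/
abbrev R3 : Type := EuclideanSpace ℝ (Fin 3)

/-- `H` is a local diffeomorphism at `x`: smooth near `x`, with bijective derivative at `x` -/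
def LocDiff (H : R4 → R4) (x : R4) : Prop :=
  (∀ᶠ y in 𝓝 x, ContDiffAt ℝ ∞ H y) ∧ Bijective (fderiv ℝ H x)

/-- `H` is of class `C^1` near `x`, and its derivative at `x` has rank at least three -/
def C1CorankOne (H : R4 → R4) (x : R4) : Prop :=
  (∀ᶠ y in 𝓝 x, ContDiffAt ℝ 1 H y) ∧
    3 ≤ Module.finrank ℝ (LinearMap.range (fderiv ℝ H x).toLinearMap)

/-- `q` is of class `C^1` near `y`, and its derivative at `y` is surjective -/
def Submersion (q : R4 → R3) (y : R4) : Prop :=
  (∀ᶠ z in 𝓝 y, ContDiffAt ℝ 1 q z) ∧ Surjective (fderiv ℝ q y)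

/-- no nonzero vector is in the kernels of both derivatives at `y` -/
def Transversal (q q' : R4 → R3) (y : R4) : Prop :=
  ∀ v : R4, fderiv ℝ q y v = 0 → fderiv ℝ q' y v = 0 → v = 0

/-- near `y`, the map `q'` is constant on the fibres of `q` -/
def SameFibres (q q' : R4 → R3) (y : R4) : Prop :=
  ∃ W ∈ 𝓝 y, ∀ z ∈ W, ∀ z' ∈ W, q z = q z' → q' z = q' z'

/-- a family of submersions of class `C^1` from open subsets of `ℝ⁴` to `ℝ³`, any two of which are at
every common point transversal or have the same fibres near this point -/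
structure Family where
  /-- the set of indices -/
  Idx : Type
  /-- the domains -/
  dom : Idx → Set R4
  /-- the maps (the values outside the domains are irrelevant) -/
  map : Idx → R4 → R3
  isOpen_dom : ∀ j, IsOpen (dom j)
  submersion : ∀ j, ∀ y ∈ dom j, Submersion (map j) y
  compatible : ∀ j k, ∀ y ∈ dom j, y ∈ dom k →
    Transversal (map j) (map k) y ∨ SameFibres (map j) (map k) y

/-- three coordinates of `H` near `x`, given by a member of the family near `H x`, are of class `C^1`
with independent derivatives -/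
def ThreeC1 (𝓕 : Family) (H : R4 → R4) (x : R4) : Prop :=
  ∃ j, H x ∈ 𝓕.dom j ∧ Submersion (fun z => 𝓕.map j (H z)) x

/-- three linear coordinates of `H` near `x` are of class `C^1` with independent derivatives -/
def ThreeLinearC1 (H : R4 → R4) (x : R4) : Prop :=
  ∃ P : R4 →L[ℝ] R3, Submersion (fun z => P (H z)) x

/-- `G` is a diffeomorphism of `ℝ⁴`, equal to a linear isometry outside a compact set (so it extends
to a diffeomorphism of `S⁴`) -/
def StandardAtInfinity (G : R4 → R4) : Prop :=
  ContDiff ℝ ∞ G ∧ (∃ K : R4 → R4, ContDiff ℝ ∞ K ∧ LeftInverse K G ∧ RightInverse K G) ∧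
    ∃ (O : R4 ≃ₗᵢ[ℝ] R4) (R : ℝ), ∀ x, R ≤ ‖x‖ → G x = O x

/-- the sphere parametrized by `H` is unknotted, and `H` is on the ball a limit of diffeomorphisms
which agree with it on the sphere -/
def Unknotted (H : R4 → R4) : Prop :=
  ∀ ε : ℝ, 0 < ε → ∃ G : R4 → R4, StandardAtInfinity G ∧ (∀ x, ‖x‖ = 1 → G x = H x) ∧
    G '' closedBall 0 1 = H '' closedBall 0 1 ∧ ∀ x, ‖x‖ ≤ 1 → ‖G x - H x‖ < ε

theorem sub_of (q : R4 → R3) (y : R4) (h : Submersion q y) : Run7.h7.SubAt 4 3 q y := by
  refine ⟨h.1.self_of_nhds.contMDiffAt, ?_⟩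
  rw [mfderiv_eq_fderiv]
  exact h.2

theorem fam (𝓕 : Family) : Run7.h7.Fam 3 𝓕.dom 𝓕.map := by
  refine ⟨𝓕.isOpen_dom, fun j y hy => sub_of _ _ (𝓕.submersion j y hy), fun j k y hj hk => ?_⟩
  rcases 𝓕.compatible j k y hj hk with h | h
  · left
    intro v h1 h2
    rw [mfderiv_eq_fderiv] at h1 h2
    exact h v h1 h2
  · exact Or.inr h

theorem main (H : R4 → R4) (δ : ℝ) (hδ : 0 < δ) (hc : ContinuousOn H (ball 0 (1 + δ)))
    (hi : InjOn H (ball 0 (1 + δ))) (hs : ∀ x, 1 ≤ ‖x‖ → ‖x‖ < 1 + δ → LocDiff H x)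
    {J : Type} {U : J → Set R4} {Q : J → R4 → R3} (hQ : Run7.h7.Fam 3 U Q)
    (h : ∀ x, ‖x‖ < 1 → LocDiff H x ∨ C1CorankOne H x ∨
      ∃ j, H x ∈ U j ∧ Submersion (fun z => Q j (H z)) x) : Unknotted H := by
  intro ε hε
  obtain ⟨G, O, R, hb, hL, h1, h2, h3, h4⟩ := Run7.h7.schQ (m := 3) (by norm_num) H δ hδ hc hi
    (fun x hx hx' => Pool.Agent.Y522.LD_of_bij (hs x hx hx').1 (hs x hx hx').2) hQ
    (fun x hx => by
      rcases h x hx with h' | ⟨h1, h2⟩ | ⟨j, h1, h2⟩
      · exact Or.inl (Pool.Agent.Y522.LD_of_bij h'.1 h'.2)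
      · refine Or.inr (Or.inl ⟨h1.self_of_nhds.contMDiffAt, ?_⟩)
        have h3 : (mfderiv (𝓡 4) (𝓡 4) H x : R4 →L[ℝ] R4) = fderiv ℝ H x := by
          rw [mfderiv_eq_fderiv]
        have h4 := Run7.h7.K1_of_rank (L := fderiv ℝ H x) (Nat.succ_le_succ h2)
        rw [← h3] at h4
        exact h4
      · exact Or.inr (Or.inr ⟨j, h1, sub_of _ _ h2⟩)) hε
  obtain ⟨hG, hK⟩ := Pool.Agent.Y522.smooth_inverse hb hL
  exact ⟨G, ⟨hG, hK, O, R, h3⟩, h1, h2, h4⟩

theorem result (H : R4 → R4) (δ : ℝ) (hδ : 0 < δ) (hc : ContinuousOn H (ball 0 (1 + δ)))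
    (hi : InjOn H (ball 0 (1 + δ))) (hs : ∀ x, 1 ≤ ‖x‖ → ‖x‖ < 1 + δ → LocDiff H x) :
    ((∀ x, ‖x‖ < 1 → LocDiff H x ∨ C1CorankOne H x ∨ ThreeLinearC1 H x) → Unknotted H) ∧
    ((∃ 𝓕 : Family, ∀ x, ‖x‖ < 1 → LocDiff H x ∨ C1CorankOne H x ∨ ThreeC1 𝓕 H x) →
      Unknotted H) := by
  constructor
  · intro h
    refine main H δ hδ hc hi hs (Run7.h7.famLin 3) fun x hx => ?_
    rcases h x hx with h' | h' | ⟨P, hP1, hP2⟩
    · exact Or.inl h'
    · exact Or.inr (Or.inl h')
    · refine Or.inr (Or.inr ⟨⟨P, ?_⟩, mem_univ _, hP1, hP2⟩)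
      -- a linear map which takes `H` to a submersion is surjective
      by_contra hP
      have h1 : ∃ ℓ : R3 →L[ℝ] ℝ, ℓ ≠ 0 ∧ ∀ v, ℓ (P v) = 0 := by
        have h2 : LinearMap.range P.toLinearMap < ⊤ := by
          refine lt_of_le_of_ne le_top fun h3 => hP ?_
          exact LinearMap.range_eq_top.1 h3
        obtain ⟨f, hf0, hf⟩ := Submodule.exists_le_ker_of_lt_top _ h2
        refine ⟨LinearMap.toContinuousLinearMap f, ?_, fun v => ?_⟩
        · intro h0
          apply hf0
          ext v
          have := congrArg (fun g : R3 →L[ℝ] ℝ => g v) h0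
          simpa using this
        · have : P v ∈ LinearMap.ker f := hf ⟨v, rfl⟩
          simpa using this
      obtain ⟨ℓ, hℓ, h2⟩ := h1
      apply hℓ
      have hd : DifferentiableAt ℝ (fun z => P (H z)) x :=
        hP1.self_of_nhds.differentiableAt (by simp)
      have h3 : HasFDerivAt (fun z => ℓ (P (H z))) (ℓ.comp (fderiv ℝ (fun z => P (H z)) x)) x :=
        ℓ.hasFDerivAt.comp x hd.hasFDerivAt
      have h4 : HasFDerivAt (fun z => ℓ (P (H z))) (0 : R4 →L[ℝ] ℝ) x := by
        have : (fun z => ℓ (P (H z))) = fun _ => (0 : ℝ) := funext fun z => h2 _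
        rw [this]
        exact hasFDerivAt_const _ _
      have h5 := h3.unique h4
      ext v
      obtain ⟨w, hw⟩ := hP2 v
      have h6 := congrArg (fun g : R4 →L[ℝ] ℝ => g w) h5
      simp only [ContinuousLinearMap.comp_apply, hw] at h6
      simpa using h6
  · rintro ⟨𝓕, h⟩
    exact main H δ hδ hc hi hs (fam 𝓕) h

end Pool.Agent.Results.MP_6c077c_gt.C1Coordinates
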