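import Pool.Agent.Run7.h575.MS8

/-!
# Smooth Schoenflies for 3-spheres bounding a ball which is steady in the mean at small scales

A smooth 3-sphere in `ℝ⁴` (so in `S⁴`) is given together with a parametrization `H` of the
topological ball which it bounds: `H` is continuous and injective on a neighbourhood of the closed
unit ball, and a local diffeomorphism near the unit sphere. By Freedman's theorem there is always such
an `H`. We show that the sphere is unknotted if at every interior point where `H` is not a local
diffeomorphism it is directionally monotone, or steady in the mean at the scales `r = ε k`, which may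
tend to `0` arbitrarily fast: for all `z` near the point, all large `k` and all unit vectors `v` there
are a step length `κ ∈ (0, 1]`, a linear functional `ℓ` and a constant `c` (all of which may depend on
`z`, `k` and `v` in an arbitrary way) such that

* the integral of `|ℓ (H (z + r s)) - c|` over the ball `‖s‖ ≤ 2` is at most `r`,
* the integral of the positive part of `a κ² r - ℓ (H (z + r s + κ r v) - H (z + r s))` over the unit
  ball is at most `κ² r`.

So `ℓ ∘ H` has to increase by `a κ² r` along most steps in the direction `v` and of the length `κ r`,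
and it need not increase by an amount comparable with `κ r`; on a part of the ball of small measure the
map can be arbitrary. The constant `a` is absolute. Nothing is assumed at the scales between the `ε k`
or about steps of other lengths. For example it is enough that `H` has weak derivatives near the point
such that for all `z` near the point and `r = ε k` the integral of `‖L⁻¹ DH (z + r s) - 1‖` over
`‖s‖ ≤ 2` is at most a small absolute constant, with arbitrary linear isomorphisms `L`, not related for
different `z` or `r`; then `H` need not be uniformly close to an affine map at any scale.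

Proof: the mollifications of `H` at the scale `ε k` are local diffeomorphisms near the bad points, for
large `k`: the derivative of the mollification in the direction `v` is compared with its finite
difference over a step of length `κ r`. They are glued with `H` near the unit sphere; the result is a
local diffeomorphism which is homotopic to `H` relative to a neighbourhood of the sphere, hence a
diffeomorphism onto the same ball.
-/

set_option autoImplicit false

open Set Filter Topology Metric Function MeasureTheory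
open scoped ContDiff

namespace Pool.Agent.Results.MP_6c077c_gt.SteadyInTheMean

/-- `ℝ⁴` -/
abbrev R4 : Type := EuclideanSpace ℝ (Fin 4)

/-- `H` is a local diffeomorphism at `x`: smooth near `x`, with bijective derivative at `x` -/
def LocDiff (H : R4 → R4) (x : R4) : Prop :=
  (∀ᶠ y in 𝓝 x, ContDiffAt ℝ ∞ H y) ∧ Bijective (fderiv ℝ H x)

/-- `H` is directionally monotone at `x`: for every direction `v` there is a linear functional `ℓ`
such that `ℓ ∘ H` is strictly increasing near `x` in all directions near `v` -/
def DirMonotone (H : R4 → R4) (x : R4) : Prop :=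
  ∀ v : R4, v ≠ 0 → ∃ (r : ℝ) (ℓ : R4 →L[ℝ] ℝ), 0 < r ∧
    ∀ p q : R4, ‖p - x‖ ≤ r → ‖q - x‖ ≤ r → ∀ t : ℝ, 0 < t → ‖q - p - t • v‖ ≤ r * t →
      ℓ (H p) < ℓ (H q)

/-- `H` is steady in the mean at the scale `r` near `z`, in the direction `v`: for some `κ ∈ (0, 1]`,
some linear functional `ℓ` and some constant `c` the integral of `|ℓ (H (z + r s)) - c|` over
`‖s‖ ≤ 2` is at most `r`, and the integral over `‖s‖ ≤ 1` of the amount by which the increment of
`ℓ ∘ H` from `z + r s` to `z + r (s + κ v)` falls short of `a κ² r` is at most `κ² r`. -/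
def SteadyInMean (a : ℝ) (H : R4 → R4) (z : R4) (r : ℝ) (v : R4) : Prop :=
  ∃ (κ : ℝ) (ℓ : R4 →L[ℝ] ℝ) (c : ℝ), 0 < κ ∧ κ ≤ 1 ∧
    ∫ s in closedBall (0 : R4) 2, |ℓ (H (z + r • s)) - c| ≤ r ∧
    ∫ s in closedBall (0 : R4) 1,
      max (a * κ ^ 2 * r - ℓ (H (z + r • (s + κ • v)) - H (z + r • s))) 0 ≤ κ ^ 2 * r

/-- `H` is steady in the mean near `x` at the scales `ε k`, in all directions -/
def Steady (a : ℝ) (ε : ℕ → ℝ) (H : R4 → R4) (x : R4) : Prop :=
  ∃ ρ : ℝ, 0 < ρ ∧ ∀ᶠ k in atTop, ∀ z : R4, ‖z - x‖ < ρ → ∀ v : R4, ‖v‖ = 1 →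
    SteadyInMean a H z (ε k) v

/-- `G` is a diffeomorphism of `ℝ⁴`, equal to a linear isometry outside a compact set (so it extends
to a diffeomorphism of `S⁴`) -/
def StandardAtInfinity (G : R4 → R4) : Prop :=
  ContDiff ℝ ∞ G ∧ (∃ K : R4 → R4, ContDiff ℝ ∞ K ∧ LeftInverse K G ∧ RightInverse K G) ∧
    ∃ (O : R4 ≃ₗᵢ[ℝ] R4) (R : ℝ), ∀ x, R ≤ ‖x‖ → G x = O x

theorem result : ∃ a : ℝ, 0 < a ∧ ∀ ε : ℕ → ℝ, (∀ k, 0 < ε k) → Tendsto ε atTop (𝓝 0) →
    ∀ (H : R4 → R4) (δ : ℝ), 0 < δ → ContinuousOn H (ball 0 (1 + δ)) →
    InjOn H (ball 0 (1 + δ)) → (∀ x, 1 ≤ ‖x‖ → ‖x‖ < 1 + δ → LocDiff H x) →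
    (∀ x, ‖x‖ < 1 → LocDiff H x ∨ DirMonotone H x ∨ Steady a ε H x) →
    ∃ G : R4 → R4, StandardAtInfinity G ∧ (∀ x, ‖x‖ = 1 → G x = H x) ∧
      G '' closedBall 0 1 = H '' closedBall 0 1 := by
  refine ⟨Run7.h575.MS.am 4, Run7.h575.MS.am_pos, fun ε hε hε0 H δ hδ hc hi hs h => ?_⟩
  have hca : ∀ x : R4, ‖x‖ < 1 → ∀ᶠ w in 𝓝 x, ContinuousAt H w := fun x hx => by
    have h1 : x ∈ ball (0 : R4) (1 + δ) := by
      rw [mem_ball_zero_iff]
      linarith
    filter_upwards [isOpen_ball.mem_nhds h1] with w hw
    exact hc.continuousAt (isOpen_ball.mem_nhds hw)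
  obtain ⟨G, O, R, hb, hL, h1, h2, h3⟩ := Run7.h60.Sc.sch_flat hε hε0 H δ hδ hc hi
    (fun x hx hx' => Pool.Agent.Y522.LD_of_bij (hs x hx hx').1 (hs x hx hx').2)
    (fun x hx => by
      rcases h x hx with h' | h' | ⟨ρ, hρ, h'⟩
      · exact Or.inl (Pool.Agent.Y522.LD_of_bij h'.1 h'.2)
      · exact Or.inr (Run7.h60.Sc.ld_of_dmon hε hε0 (hca x hx) h')
      · exact Or.inr (Run7.h575.MS.ld_of_mean hε hε0 hρ (hca x hx) h'))
  obtain ⟨hG, hK⟩ := Pool.Agent.Y522.smooth_inverse hb hL
  exact ⟨G, ⟨hG, hK, O, R, h3⟩, h1, h2⟩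

end Pool.Agent.Results.MP_6c077c_gt.SteadyInTheMean
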