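import Pool.Agent.Run7.h7.C1Ball
import Pool.Agent.R865.SchT

/-!
# Smooth Schoenflies for 3-spheres which bound a ball with a parametrization of class `C^1` and of
corank at most one, or cone monotone, in one of the two directions

A smooth 3-sphere in `ℝ⁴` (so in `S⁴`) is given together with a parametrization `H` of the topological
ball which it bounds: `H` is injective on a neighbourhood of the closed unit ball, and a local
diffeomorphism near the unit sphere. We show that the sphere is unknotted if the homeomorphism given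
by `H` from the open unit ball onto its image belongs to the following class, called `Tame`.

It is the least class of homeomorphisms between smooth 4-manifolds (without boundary, possibly
noncompact, possibly exotic) which contains the homeomorphisms `g` with a compact set of points at
which they are not local diffeomorphisms and which at every point `x`

* are cone monotone, or
* are of class `C^1` near `x` with a derivative of rank at least three at `x`, or
* have an inverse of class `C^1` near `g x` with a derivative of rank at least three at `g x`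

(the property may depend on the point), and which is closed under inverses, compositions and limits
relative to infinity (`g` belongs to the class if every neighbourhood of its graph contains the graph
of a member which agrees with `g` outside a compact set).
-/

set_option autoImplicit false

open Set Filter Topology Metric Function
open scoped Manifold ContDiff

noncomputable section

namespace Pool.Agent.Results.MP_6c077c_gt.TameC1Ball

/-- `ℝ⁴` -/
abbrev R4 : Type := EuclideanSpace ℝ (Fin 4)

/-- smooth 4-manifolds (Hausdorff, without boundary) -/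
structure Mfd4 where
  /-- the set of points -/
  pts : Type
  [top : TopologicalSpace pts]
  [chart : ChartedSpace R4 pts]
  smooth : IsManifold (𝓡 4) ∞ pts
  hausdorff : T2Space pts

instance : CoeSort Mfd4 Type := ⟨Mfd4.pts⟩

instance (M : Mfd4) : TopologicalSpace M := M.top

instance (M : Mfd4) : ChartedSpace R4 M := M.chart

/-- an open subset of `ℝ⁴` as a smooth manifold -/
def openSubset (V : TopologicalSpace.Opens R4) : Mfd4 where
  pts := V
  smooth := inferInstance
  hausdorff := inferInstance

/-- the inclusion of an open subset of `ℝ⁴` in `ℝ⁴` -/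
def incl (V : TopologicalSpace.Opens R4) : openSubset V → R4 := fun y => (show V from y).1

/-- the open unit ball of `ℝ⁴` -/
def unitBall : TopologicalSpace.Opens R4 := ⟨ball 0 1, isOpen_ball⟩

section defs

variable {M N : Type} [TopologicalSpace M] [TopologicalSpace N] [ChartedSpace R4 M]
  [ChartedSpace R4 N]

/-- `f` is of class `C^1` near `x` -/
def C1Near (f : M → N) (x : M) : Prop := ∀ᶠ y in 𝓝 x, ContMDiffAt (𝓡 4) (𝓡 4) 1 f y

/-- the derivative of `f` at `x`, as a linear map from `ℝ⁴` to `ℝ⁴` (in the preferred charts) -/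
def der (f : M → N) (x : M) : R4 →L[ℝ] R4 := mfderiv (𝓡 4) (𝓡 4) f x

/-- the rank of a linear map -/
def rank (L : R4 →L[ℝ] R4) : ℕ := Module.finrank ℝ (LinearMap.range L.toLinearMap)

/-- `f` is of class `C^1` near `x`, and its derivative at `x` has rank at least three -/
def C1CorankOne (f : M → N) (x : M) : Prop := C1Near f x ∧ 3 ≤ rank (der f x)

/-- `f` is a local diffeomorphism (of class `C^∞`, with smooth inverse) at `x` -/
def LocDiff (f : M → N) (x : M) : Prop := IsLocalDiffeomorphAt (𝓡 4) (𝓡 4) ∞ f x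

/-- For every direction `v` the increments of `h` near `0` in the directions near `v` lie in a
proper cone: there are `r > 0` and a linear functional `ℓ` with `r ‖h q - h p‖ < ℓ (h q - h p)` for
all `p`, `q` in the ball of radius `r` about `0` such that `‖q - p - t v‖ ≤ r t` for some
`t > 0`. -/
def ConeIncrements (h : R4 → R4) : Prop :=
  ∀ v : R4, v ≠ 0 → ∃ (r : ℝ) (ℓ : R4 →L[ℝ] ℝ), 0 < r ∧ ∀ p q : R4, ‖p‖ ≤ r → ‖q‖ ≤ r →
    ∀ t : ℝ, 0 < t → ‖q - p - t • v‖ ≤ r * t → r * ‖h q - h p‖ < ℓ (h q - h p)

/-- `f` is cone monotone at `x`: it has increments in proper cones in some smooth coordinates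
around `x = A 0` and around `f x` (`A` is a smooth parametrization around `x`, `B` a smooth
coordinate system around `f x`). -/
def ConeMonotone (f : M → N) (x : M) : Prop :=
  ∃ (A : R4 → M) (B : N → R4), A 0 = x ∧ LocDiff A 0 ∧ LocDiff B (f x) ∧
    ConeIncrements fun p => B (f (A p))

/-- the set of the points at which `f` is not a local diffeomorphism -/
def bad (f : M → N) : Set M := {x | ¬ LocDiff f x}

/-- the graph of `f` is contained in `O` -/
def GraphIn (f : M → N) (O : Set (M × N)) : Prop := ∀ x, (x, f x) ∈ O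

end defs

/-- The least class of homeomorphisms of smooth 4-manifolds which contains the following ones: the
set of the bad points of `g` is compact, and at every point `x`, `g` is a local diffeomorphism or cone
monotone, or of class `C^1` and of corank at most one, or its inverse is so at `g x`; and which is
closed under inverses, compositions and limits relative to infinity. -/
inductive Tame : (M N : Mfd4) → (M ≃ₜ N) → Prop
  | loc {M N : Mfd4} (g : M ≃ₜ N) : IsCompact (bad g) →
      (∀ x, LocDiff g x ∨ ConeMonotone g x ∨ C1CorankOne g x ∨ C1CorankOne g.symm (g x)) →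
      Tame M N g
  | inverse {M N : Mfd4} (g : M ≃ₜ N) : Tame M N g → Tame N M g.symm
  | composition {M N P : Mfd4} (g : M ≃ₜ N) (h : N ≃ₜ P) :
      Tame M N g → Tame N P h → Tame M P (g.trans h)
  | limit {M N : Mfd4} (g : M ≃ₜ N) (h : Set (M × N) → (M ≃ₜ N)) (C : Set (M × N) → Set M) :
      (∀ O, IsOpen O → GraphIn g O → IsCompact (C O) ∧ GraphIn (h O) O ∧
        ∀ x, x ∉ C O → h O x = g x) →
      (∀ O, IsOpen O → GraphIn g O → Tame M N (h O)) → Tame M N g

/-- every neighbourhood of the graph of `g` contains the graph of a diffeomorphism which agrees with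
`g` outside a compact set -/
def Approximable (M N : Mfd4) (g : M ≃ₜ N) : Prop :=
  ∀ O : Set (M × N), IsOpen O → GraphIn g O →
    ∃ (Φ : Diffeomorph (𝓡 4) (𝓡 4) M N ∞) (C : Set M), IsCompact C ∧ GraphIn Φ O ∧
      ∀ x, x ∉ C → Φ x = g x

theorem approx_symm {M N : Mfd4} (g : M ≃ₜ N) (hg : Approximable M N g) :
    Approximable N M g.symm := by
  intro O hO hgO
  obtain ⟨Φ, C, hC, hΦ, hoff⟩ := hg (Prod.swap ⁻¹' O) (hO.preimage continuous_swap) (fun x => by
    have := hgO (g x)
    rw [g.symm_apply_apply] at this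
    exact this)
  refine ⟨Φ.symm, g '' C, hC.image g.continuous, fun y => ?_, fun y hy => ?_⟩
  · have := hΦ (Φ.symm y)
    rw [Φ.apply_symm_apply] at this
    exact this
  · have h1 : g.symm y ∉ C := fun h => hy ⟨_, h, g.apply_symm_apply y⟩
    have h2 := hoff _ h1
    rw [g.apply_symm_apply] at h2
    rw [← h2, Φ.symm_apply_apply, h2]

theorem approx_trans {M N P : Mfd4} (g : M ≃ₜ N) (h : N ≃ₜ P)
    (hg : Approximable M N g) (hh : Approximable N P h) : Approximable M P (g.trans h) := by
  intro O hO hgO
  have c1 : Continuous fun z : N × P => ((g.symm z.1, z.2) : M × P) :=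
    (g.symm.continuous.comp continuous_fst).prodMk continuous_snd
  obtain ⟨Ψ, D, hD, hΨ, hoff2⟩ := hh ((fun z : N × P => ((g.symm z.1, z.2) : M × P)) ⁻¹' O)
    (hO.preimage c1) (fun y => by
      have := hgO (g.symm y)
      rw [Homeomorph.trans_apply, g.apply_symm_apply] at this
      exact this)
  have c2 : Continuous fun z : M × N => ((z.1, Ψ z.2) : M × P) :=
    continuous_fst.prodMk (Ψ.continuous.comp continuous_snd)
  obtain ⟨Φ, C, hC, hΦ, hoff⟩ := hg ((fun z : M × N => ((z.1, Ψ z.2) : M × P)) ⁻¹' O)
    (hO.preimage c2) (fun x => by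
      have := hΨ (g x)
      simp only [mem_preimage, g.symm_apply_apply] at this
      exact this)
  refine ⟨Φ.trans Ψ, C ∪ g.symm '' D, hC.union (hD.image g.symm.continuous), hΦ, fun x hx => ?_⟩
  have h1 : Φ x = g x := hoff x fun h => hx (Or.inl h)
  have h2 : g x ∉ D := fun h => hx (Or.inr ⟨_, h, g.symm_apply_apply x⟩)
  change Ψ (Φ x) = h (g x)
  rw [h1, hoff2 _ h2]

theorem loc_aux (X Y : Type) [TopologicalSpace X] [TopologicalSpace Y]
    [ChartedSpace R4 X] [ChartedSpace R4 Y] (hX1 : IsManifold (𝓡 4) ∞ X) (hX2 : T2Space X)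
    (hY : IsManifold (𝓡 4) ∞ Y) (g : X ≃ₜ Y) (hb : IsCompact (bad g))
    (hg : ∀ x, LocDiff g x ∨ ConeMonotone g x ∨ C1CorankOne g x ∨ C1CorankOne g.symm (g x))
    (O : Set (X × Y)) (hO : IsOpen O) (hgO : GraphIn g O) :
    ∃ (Φ : Diffeomorph (𝓡 4) (𝓡 4) X Y ∞) (C : Set X), IsCompact C ∧ GraphIn Φ O ∧
      ∀ x, x ∉ C → Φ x = g x := by
  obtain ⟨F, C, hC, hF, hd, hG, hoff⟩ := Run7.h7.mixed (n := 4) (by norm_num) g (fun x => by
    rcases hg x with h | ⟨A, B, h1, h2, h3, h4⟩ | ⟨h1, h2⟩ | ⟨h1, h2⟩
    · exact Or.inl (Or.inl h)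
    · exact Or.inl (Or.inr ⟨B, h3, A, h1, h2, h4⟩)
    · exact Or.inr (Or.inl ⟨h1.self_of_nhds, Run7.h7.K1_of_rank (Nat.succ_le_succ h2)⟩)
    · exact Or.inr (Or.inr ⟨h1.self_of_nhds, Run7.h7.K1_of_rank (Nat.succ_le_succ h2)⟩)) hb hO hgO
  have hl : IsLocalDiffeomorph (𝓡 4) (𝓡 4) ∞ F := hd
  exact ⟨hl.diffeomorphOfBijective hF, C, hC, hG, hoff⟩

theorem approx_of_tame {M N : Mfd4} (g : M ≃ₜ N) (hg : Tame M N g) : Approximable M N g := by
  induction hg with
  | @loc M N g hb hc => exact loc_aux M N M.smooth M.hausdorff N.smooth g hb hc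
  | inverse g _ ih => exact approx_symm g ih
  | composition g h _ _ ih1 ih2 => exact approx_trans g h ih1 ih2
  | limit g h C h1 _ ih =>
    intro O hO hgO
    obtain ⟨hC, hG, hoff⟩ := h1 O hO hgO
    obtain ⟨Φ, D, hD, hΦ, hoff2⟩ := ih O hO hgO O hO hG
    refine ⟨Φ, C O ∪ D, hC.union hD, hΦ, fun x hx => ?_⟩
    rw [hoff2 x fun h => hx (Or.inr h), hoff x fun h => hx (Or.inl h)]

/-- `G` is a diffeomorphism of `ℝ⁴`, equal to a linear isometry outside a compact set (so it extends
to a diffeomorphism of `S⁴`) -/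
def StandardAtInfinity (G : R4 → R4) : Prop :=
  ContDiff ℝ ∞ G ∧ (∃ K : R4 → R4, ContDiff ℝ ∞ K ∧ LeftInverse K G ∧ RightInverse K G) ∧
    ∃ (O : R4 ≃ₗᵢ[ℝ] R4) (R : ℝ), ∀ x, R ≤ ‖x‖ → G x = O x

theorem result (H : R4 → R4) (δ : ℝ) (hδ : 0 < δ)
    (hi : InjOn H (ball 0 (1 + δ))) (hs : ∀ x, 1 ≤ ‖x‖ → ‖x‖ < 1 + δ → LocDiff H x)
    (V : TopologicalSpace.Opens R4) (g : openSubset unitBall ≃ₜ openSubset V)
    (hg : ∀ x, incl V (g x) = H (incl unitBall x))
    (ht : Tame (openSubset unitBall) (openSubset V) g) :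
    ∃ G : R4 → R4, StandardAtInfinity G ∧ (∀ x, ‖x‖ = 1 → G x = H x) ∧
      G '' closedBall 0 1 = H '' closedBall 0 1 := by
  obtain ⟨Φ, C, hC, -, hoff⟩ := approx_of_tame g ht univ isOpen_univ (fun _ => mem_univ _)
  obtain ⟨G, O, R, hb, hL, h1, h2, h3⟩ := Pool.Agent.R865.SchT.sch_of_diffeo 4 H δ hδ hi hs V
    g hg g.surjective Φ C hC hoff
  obtain ⟨hG, hK⟩ := Pool.Agent.Y522.smooth_inverse hb hL
  exact ⟨G, ⟨hG, hK, O, R, h3⟩, h1, h2⟩

end Pool.Agent.Results.MP_6c077c_gt.TameC1Ball
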